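import Pool.Agent.Helper11.PK.Defs
import Pool.Agent.Helper40.PC.OREG

/-! # Project PK, packet POREG: group algebras of groups of polynomial growth are left Ore -/

namespace Pool.Agent.Helper83.PK

open Pool.Agent.Helper11.PC Pool.Agent.Helper40.PC
open MonoidAlgebra

universe u

variable {k : Type} [Field k]

theorem word_indep {R : Type u} [Ring R] [Algebra k R] [NoZeroDivisors R] (a b : R)
    (hb : b ≠ 0) (hab : ∀ x y : R, x * a = y * b → x = 0) (h1 : (1 : R) ≠ 0) :
    ∀ (j : ℕ) (c : (Fin j → Bool) → k), ∑ v, c v • word a b j v = 0 → ∀ v, c v = 0 := by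
  intro j
  induction j with
  | zero =>
    intro c hc v
    rw [Fintype.sum_subsingleton _ v] at hc
    by_contra hne
    apply h1
    have h2 : (c v)⁻¹ • (c v • word a b 0 v) = 0 := by rw [hc, smul_zero]
    rw [smul_smul, inv_mul_cancel₀ hne, one_smul] at h2
    exact h2
  | succ j ih =>
    intro c hc
    have hsum : ∑ v, c v • word a b (j + 1) v =
        (∑ v : Fin j → Bool, c (Fin.cons true v) • word a b j v) * a +
        (∑ v : Fin j → Bool, c (Fin.cons false v) • word a b j v) * b := by
      rw [← (Fin.consEquiv (fun _ : Fin (j + 1) => Bool)).sum_comp, Fintype.sum_prod_type,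
        Fintype.sum_bool, Finset.sum_mul, Finset.sum_mul]
      congr 1
      · refine Finset.sum_congr rfl fun v _ => ?_
        rw [smul_mul_assoc]
        rfl
      · refine Finset.sum_congr rfl fun v _ => ?_
        rw [smul_mul_assoc]
        rfl
    rw [hsum] at hc
    have hx : (∑ v : Fin j → Bool, c (Fin.cons true v) • word a b j v) = 0 := by
      apply hab _ (-(∑ v : Fin j → Bool, c (Fin.cons false v) • word a b j v))
      rw [neg_mul]
      exact eq_neg_of_add_eq_zero_left hc
    have hy : (∑ v : Fin j → Bool, c (Fin.cons false v) • word a b j v) = 0 := by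
      rw [hx, zero_mul, zero_add] at hc
      rcases mul_eq_zero.1 hc with h | h
      · exact h
      · exact absurd h hb
    intro v
    rw [← Fin.cons_self_tail v]
    rcases hv : v 0 with _ | _
    · exact ih _ hy (Fin.tail v)
    · exact ih _ hx (Fin.tail v)

theorem word_support {N : Type u} [Group N] (a b : MonoidAlgebra k N) (S : Finset N)
    (ha : ∀ x, a.coeff x ≠ 0 → x ∈ S) (hb : ∀ x, b.coeff x ≠ 0 → x ∈ S) :
    ∀ (j : ℕ) (v : Fin j → Bool) (x : N), (word a b j v).coeff x ≠ 0 → x ∈ prods S j := by
  classical
  intro j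
  induction j with
  | zero =>
    intro v x hx
    refine ⟨[], rfl, fun z hz => absurd hz (List.not_mem_nil), ?_⟩
    have h1 : x ∈ (1 : MonoidAlgebra k N).coeff.support := Finsupp.mem_support_iff.2 hx
    have h2 := MonoidAlgebra.support_coeff_one_subset h1
    rw [Finset.mem_one] at h2
    rw [h2]
    rfl
  | succ j ih =>
    intro v x hx
    have h1 : x ∈ (word a b j (fun i => v i.succ) * (if v 0 then a else b)).coeff.support :=
      Finsupp.mem_support_iff.2 hx
    have h2 := MonoidAlgebra.support_coeff_mul_subset _ _ h1
    rw [Finset.mem_mul] at h2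
    obtain ⟨y, hy, z, hz, rfl⟩ := h2
    obtain ⟨l, hl, hS, hp⟩ := ih _ y (Finsupp.mem_support_iff.1 hy)
    have hzS : z ∈ S := by
      rcases hv : v 0 with _ | _
      · rw [hv] at hz
        exact hb z (Finsupp.mem_support_iff.1 hz)
      · rw [hv] at hz
        exact ha z (Finsupp.mem_support_iff.1 hz)
    refine ⟨l ++ [z], ?_, ?_, ?_⟩
    · rw [List.length_append, hl]
      rfl
    · intro w hw
      rcases List.mem_append.1 hw with h | h
      · exact hS w h
      · rw [List.mem_singleton.1 h]
        exact hzS
    · rw [List.prod_append, hp, List.prod_singleton]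

/-- **POREG.** -/
theorem poreg {N : Type u} [Group N] [NoZeroDivisors (MonoidAlgebra k N)] (hgr : PolyGrowth N) :
    LeftOre (MonoidAlgebra k N) := by
  classical
  intro a b ha hb
  by_contra hcon
  have hab : ∀ x y : MonoidAlgebra k N, x * a = y * b → x = 0 := by
    intro x y hxy
    by_contra hx
    exact hcon ⟨x, y, hx, hxy⟩
  let S : Finset N := a.coeff.support ∪ b.coeff.support
  obtain ⟨C, d, hCd⟩ := hgr S
  obtain ⟨j, hj⟩ := exists_exp_gt C d
  have hfin := prods_finite S j
  have : Fintype (prods S j) := hfin.fintype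
  have hsup := word_support a b S
    (fun x hx => Finset.mem_union_left _ (Finsupp.mem_support_iff.2 hx))
    (fun x hx => Finset.mem_union_right _ (Finsupp.mem_support_iff.2 hx)) j
  have h1 : (1 : MonoidAlgebra k N) ≠ 0 := by
    intro h
    have h2 := congrArg (fun z : MonoidAlgebra k N => z.coeff 1) h
    simp at h2
  have hind := word_indep (k := k) a b hb hab h1 j
  -- the restricted family
  have hli : LinearIndependent k
      (fun v : Fin j → Bool => fun s : prods S j => (word a b j v).coeff (s : N)) := by
    rw [Fintype.linearIndependent_iff]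
    intro c hc
    apply hind c
    ext x
    rw [MonoidAlgebra.coeff_sum, Finsupp.finsetSum_apply, MonoidAlgebra.coeff_zero]
    by_cases hx : x ∈ prods S j
    · have h3 := congrFun hc ⟨x, hx⟩
      rw [Finset.sum_apply] at h3
      rw [Finsupp.coe_zero, Pi.zero_apply, ← h3.trans (Pi.zero_apply _)]
      refine Finset.sum_congr rfl fun v _ => ?_
      rw [MonoidAlgebra.coeff_smul]
      rfl
    · rw [Finsupp.coe_zero, Pi.zero_apply]
      refine Finset.sum_eq_zero fun v _ => ?_
      rw [MonoidAlgebra.coeff_smul, Finsupp.smul_apply]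
      have h4 : (word a b j v).coeff x = 0 := by
        by_contra hne
        exact hx (hsup v x hne)
      rw [h4, smul_zero]
  have hcard := hli.fintype_card_le_finrank
  rw [Module.finrank_fintype_fun_eq_card, Fintype.card_fun, Fintype.card_bool, Fintype.card_fin]
    at hcard
  have h5 : Fintype.card (prods S j) = (prods S j).ncard := by
    rw [← Nat.card_coe_set_eq, Nat.card_eq_fintype_card]
  have h6 : (prods S j).ncard ≤ C * (j + 1) ^ d := hCd j
  omega

end Pool.Agent.Helper83.PK
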